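import Mathlib

open Set Metric GromovHausdorff unitInterval

namespace Pool.Agent.Results.MP_457a5a_gt.Hull

section Defs
variable (γ : I → Type) [∀ t, MetricSpace (γ t)] [∀ t, CompactSpace (γ t)] [∀ t, Nonempty (γ t)]

/-- Gromov-Hausdorff geodesic -/
def Geodesic : Prop := ∀ s t : I, ghDist (γ s) (γ t) = |(s : ℝ) - t| * ghDist (γ 0) (γ 1)

/-- Hausdorff realization of γ in X -/
def Realizes {X : Type} [MetricSpace X] (φ : ∀ t, γ t → X) : Prop :=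
  (∀ t, Isometry (φ t)) ∧ ∀ s t, hausdorffDist (range (φ s)) (range (φ t)) = ghDist (γ s) (γ t)

end Defs

abbrev A (t : I) : Type := Icc (-(t : ℝ) / 2) (t / 2)

instance (t : I) : Nonempty (A t) := ⟨⟨0, by constructor <;> linarith [t.2.1]⟩⟩

def φ (t : I) (x : A t) : A 1 :=
  ⟨x, by have := x.2; constructor <;> simp <;> linarith [this.1, this.2, t.2.2]⟩

noncomputable def ψ (t : I) (x : A t) : A 1 × A 1 :=
  (φ t x, ⟨t / 2, by constructor <;> simp <;> linarith [t.2.1, t.2.2]⟩)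

lemma φ_iso (t : I) : Isometry (φ t) := fun _ _ => rfl

lemma ψ_iso (t : I) : Isometry (ψ t) := Isometry.of_dist_eq fun x y => by
  simp [ψ, Prod.dist_eq, (φ_iso t).dist_eq]

lemma near (s t : I) (x : A s) : ∃ y : A t, |(x : ℝ) - y| ≤ |(s : ℝ) - t| / 2 := by
  have h1 := x.2.1
  have h2 := x.2.2
  have h3 := t.2.1
  have h4 := le_abs_self ((s : ℝ) - t)
  have h5 := abs_nonneg ((s : ℝ) - t)
  by_cases a : (x : ℝ) ≤ -t / 2
  · exact ⟨⟨-t / 2, le_rfl, by linarith⟩, abs_le.2 ⟨by simp only; linarith, by simp only; linarith⟩⟩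
  by_cases b : (t : ℝ) / 2 ≤ x
  · exact ⟨⟨t / 2, by linarith, le_rfl⟩, abs_le.2 ⟨by simp only; linarith, by simp only; linarith⟩⟩
  · exact ⟨⟨x, by linarith, by linarith⟩, by simp; linarith⟩

lemma low (s t : I) : ((s : ℝ) - t) / 2 ≤ ghDist (A s) (A t) := by
  obtain ⟨Φ, Ψ, hΦ, hΨ, e⟩ := ghDist_eq_hausdorffDist (A s) (A t)
  refine le_of_forall_gt_imp_ge_of_dense fun r hr => ?_
  have fin := hausdorffEDist_ne_top_of_nonempty_of_bounded (range_nonempty Φ) (range_nonempty Ψ)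
    (isCompact_range hΦ.continuous).isBounded (isCompact_range hΨ.continuous).isBounded
  have h0 := s.2.1
  obtain ⟨_, ⟨y, rfl⟩, hy⟩ := exists_dist_lt_of_hausdorffDist_lt
    (mem_range_self (f := Φ) ⟨-s / 2, le_rfl, by linarith⟩) (e ▸ hr) fin
  obtain ⟨_, ⟨z, rfl⟩, hz⟩ := exists_dist_lt_of_hausdorffDist_lt
    (mem_range_self (f := Φ) ⟨s / 2, by linarith, le_rfl⟩) (e ▸ hr) fin
  have h := dist_triangle4 (Φ ⟨s / 2, by linarith, le_rfl⟩) (Ψ z) (Ψ y)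
    (Φ ⟨-s / 2, le_rfl, by linarith⟩)
  rw [hΦ.dist_eq, hΨ.dist_eq, dist_comm (Ψ y), Subtype.dist_eq, Subtype.dist_eq, Real.dist_eq,
    Real.dist_eq] at h
  have h1 : |(z : ℝ) - y| ≤ t := abs_le.2 ⟨by linarith [z.2.1, y.2.2], by linarith [z.2.2, y.2.1]⟩
  have h2 := le_abs_self ((s : ℝ) / 2 - -s / 2)
  linarith

lemma low' (s t : I) : |(s : ℝ) - t| / 2 ≤ ghDist (A s) (A t) := by
  have a := low s t
  have b := low t s
  rw [ghDist, dist_comm, ← ghDist] at b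
  rcases abs_cases ((s : ℝ) - t) with h | h <;> linarith [h.1]

lemma real {X : Type} [MetricSpace X] (f : ∀ t, A t → X) (hf : ∀ t, Isometry (f t))
    (h : ∀ s t (x : A s) (y : A t), |(x : ℝ) - y| ≤ |(s : ℝ) - t| / 2 →
      dist (f s x) (f t y) ≤ |(s : ℝ) - t| / 2) (s t : I) :
    hausdorffDist (range (f s)) (range (f t)) = ghDist (A s) (A t) ∧
      ghDist (A s) (A t) = |(s : ℝ) - t| / 2 := by
  have a : hausdorffDist (range (f s)) (range (f t)) ≤ |(s : ℝ) - t| / 2 := by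
    apply hausdorffDist_le_of_mem_dist (by positivity)
    · rintro _ ⟨x, rfl⟩
      obtain ⟨y, hy⟩ := near s t x
      exact ⟨_, mem_range_self y, h s t x y hy⟩
    · rintro _ ⟨x, rfl⟩
      obtain ⟨y, hy⟩ := near t s x
      exact ⟨_, mem_range_self y, by rw [abs_sub_comm (s : ℝ)]; exact h t s x y hy⟩
  have b := ghDist_le_hausdorffDist (hf s) (hf t)
  have c := low' s t
  constructor <;> linarith

lemma line {U V : Type} [MetricSpace U] [MetricSpace V] (j : U → ℝ) (hj : Isometry j) (a b c : V)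
    (h1 : dist a b = 1 / 2) (h2 : dist a c = 1 / 2) (h3 : dist b c = 1 / 2) : IsEmpty (U ≃ᵢ V) := by
  refine ⟨fun e => ?_⟩
  rw [← e.symm.dist_eq, ← hj.dist_eq, Real.dist_eq] at h1 h2 h3
  rcases abs_eq (by norm_num) |>.1 h1 with h1 | h1 <;> rcases abs_eq (by norm_num) |>.1 h2 with
    h2 | h2 <;> rcases abs_eq (by norm_num) |>.1 h3 with h3 | h3 <;> linarith

theorem result : ∃ (γ : I → Type) (_ : ∀ t, MetricSpace (γ t)) (_ : ∀ t, CompactSpace (γ t))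
    (_ : ∀ t, Nonempty (γ t)), Geodesic γ ∧ 0 < ghDist (γ 0) (γ 1) ∧
    ∃ (X Y : Type) (_ : MetricSpace X) (_ : MetricSpace Y), CompactSpace X ∧ CompactSpace Y ∧
      IsEmpty (X ≃ᵢ Y) ∧ ∃ (φ : ∀ t, γ t → X) (ψ : ∀ t, γ t → Y), Realizes γ φ ∧ Realizes γ ψ ∧
        IsEmpty ((⋃ t, range (φ t) : Set X) ≃ᵢ (⋃ t, range (ψ t) : Set Y)) := by
  have r1 := real φ φ_iso fun s t x y h => h
  have r2 := real ψ ψ_iso fun s t x y h => by
    rw [Prod.dist_eq]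
    refine max_le h (le_of_eq ?_)
    simp only [ψ, Subtype.dist_eq, Real.dist_eq, ← sub_div, abs_div]; norm_num
  let a : A 1 := ⟨-1 / 4, by norm_num⟩
  let b : A 1 := ⟨1 / 4, by norm_num⟩
  let c : A 0 := ⟨0, by norm_num⟩
  have h1 : dist (ψ 1 a) (ψ 1 b) = 1 / 2 := by
    simp [ψ, φ, a, b, Prod.dist_eq, Subtype.dist_eq, Real.dist_eq]; norm_num [abs_of_neg]
  have h2 : dist (ψ 1 a) (ψ 0 c) = 1 / 2 := by
    simp [ψ, φ, a, c, Prod.dist_eq, Subtype.dist_eq, Real.dist_eq]; norm_num [abs_of_neg]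
  have h3 : dist (ψ 1 b) (ψ 0 c) = 1 / 2 := by
    simp [ψ, φ, b, c, Prod.dist_eq, Subtype.dist_eq, Real.dist_eq]; norm_num
  refine ⟨A, inferInstance, inferInstance, inferInstance, fun s t => ?_, ?_, A 1, A 1 × A 1,
    inferInstance, inferInstance, inferInstance, inferInstance,
    line _ isometry_subtype_coe _ _ _ h1 h2 h3, φ, ψ, ⟨φ_iso, fun s t => (r1 s t).1⟩,
    ⟨ψ_iso, fun s t => (r2 s t).1⟩, ?_⟩
  · rw [(r1 s t).2, (r1 0 1).2]; simp; ring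
  · rw [(r1 0 1).2]; simp
  · exact line _ (isometry_subtype_coe.comp isometry_subtype_coe)
      (⟨ψ 1 a, mem_iUnion.2 ⟨1, a, rfl⟩⟩ : (⋃ t, range (ψ t) : Set (A 1 × A 1)))
      ⟨ψ 1 b, mem_iUnion.2 ⟨1, b, rfl⟩⟩ ⟨ψ 0 c, mem_iUnion.2 ⟨0, c, rfl⟩⟩ h1 h2 h3

end Pool.Agent.Results.MP_457a5a_gt.Hull
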